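import Pool.Agent.H462.N9.Fin
import Pool.Agent.H462.N9.Law.Pk
import Pool.Agent.H462.QJ.Ev
import Pool.Agent.H508.N.My
import Pool.Agent.H508.W.Jt

/-!
# The formula of Birch and Swinnerton-Dyer at `p = 3` for the curves `x³ + y³ = 3 m`

`m > 1` runs through the cube-free numbers all of whose prime factors are `1` modulo `3`, and `E_m` is the
curve `y² + 3 m y = x³` over `ℚ`, which is `3`-isogenous to the curve `x³ + y³ = 3 m`. Put

  `z_m = L(E_m, 1) · #E_m(ℚ)_tors² / (Ω(E_m) ∏_p c_p(E_m))`,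

so that the formula says `z_m = #Ш(E_m/ℚ)` if `E_m(ℚ)` is finite.

* For every `m` the equation is a global minimal one, `∏ c_p = 3 ^ (ω(m) + 1)`, the order of the torsion
  group is divisible by `3` and not by `9`, `L(E_m, s)` is entire and `z_m` is integral at the places
  above `3`.
* For every `m` the number `z_m` is a unit at the places above `3` if and only if `E_m(ℚ)` is finite and
  `Ш(E_m/ℚ)` has no element of order `3`. So the formula holds modulo `3` for every `m`.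
* This is the case if and only if `3 m` has no splitting: it is not a product `d₀ d₁ d₂` of coprime
  numbers, at least two of them different from `1`, such that `d₁ d₂²`, `d₂ d₀²`, `d₀ d₁²` are cubes modulo
  the primes dividing `d₀`, `d₁`, `d₂`. Then `L(E_m, 1) ≠ 0`, `E_m(ℚ)` is finite, the `3`-primary part of
  `Ш(E_m/ℚ)` is trivial, and the `3`-part of the formula holds.
* The natural density of these `m` among all the `m` is exactly `p₀ = ∏_{i ≥ 1} (1 - 3^{-i}) = 0.5601..`,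
  and the same holds for the squarefree `m`.
* More generally, let `A_1, …, A_k` be different numbers of this kind (`1` is allowed), and let `m` run
  through all the numbers of the class (or only the squarefree ones) which are prime to the `A_i`. The
  events `3 A_i m` has no splitting (the `3`-part of the formula holds for `E_{A_i m}`, with both sides
  units) are asymptotically independent: the share of the `m` for which this is so exactly for the `i` in a
  given set `T` tends to `p₀ ^ |T| (1 - p₀) ^ (k - |T|)`.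
-/

set_option autoImplicit false

namespace Pool.Agent.Results.MP_9c97e9_nt.CubeSumThreePart

open scoped Classical
open Pool.Agent.Y703.CT (tamProd)
open Pool.Agent.Y700 (Omega)
open Pool.Agent.W97.MT (IsGloballyMinimal ap)
open Pool.Agent.TH841.SH.D (Sha)

/-- The equation `y² + 3 m y = x³`. -/
def eqn (m : ℕ) : WeierstrassCurve ℤ := ⟨0, 0, ((3 * m : ℕ) : ℤ), 0, 0⟩

/-- The curve `E_m` over `ℚ`. -/
abbrev curve (m : ℕ) : WeierstrassCurve ℚ := (eqn m).map (Int.castRingHom ℚ)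

/-- The class: `m > 1` is cube-free and all prime factors of `m` are `1` modulo `3`. -/
def InClass (m : ℕ) : Prop :=
  1 < m ∧ (∀ p : ℕ, p.Prime → p ∣ m → p % 3 = 1) ∧ ∀ p : ℕ, p.Prime → ¬ p ^ 3 ∣ m

/-- `f` is the entire continuation of the `L`-series of `E_m` (all Euler factors of the minimal
equation). -/
def IsLSeries (m : ℕ) (f : ℂ → ℂ) : Prop :=
  Differentiable ℂ f ∧ ∀ s : ℂ, 3 / 2 < s.re →
    HasProd (fun p : Nat.Primes => (1 - (ap (eqn m) p : ℂ) * ((p : ℕ) : ℂ) ^ (-s) +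
      (if ((p : ℕ) : ℤ) ∣ (eqn m).Δ then 0 else ((p : ℕ) : ℂ) ^ (1 - 2 * s)))⁻¹) (f s)

/-- The order of the torsion subgroup of `E_m(ℚ)`. -/
noncomputable def tors (m : ℕ) : ℕ := Nat.card (AddCommGroup.torsion (curve m).toAffine.Point)

/-- The normalized value `z_m`, for `f = L(E_m, s)`. -/
noncomputable def z (m : ℕ) (f : ℂ → ℂ) : ℂ :=
  f 1 * (tors m : ℂ) ^ 2 / (((Omega (eqn m) : ℝ) : ℂ) * (tamProd (eqn m) : ℂ))

/-- `u` is integral at all places above `3`: for some `n` prime to `3` the number `n u` is an algebraic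
integer. -/
def Int3 (u : ℂ) : Prop := ∃ n : ℤ, IsCoprime 3 n ∧ IsIntegral ℤ ((n : ℂ) * u)

/-- `u` is a unit at all places above `3`. -/
def Unit3 (u : ℂ) : Prop :=
  u ≠ 0 ∧ ∃ n : ℤ, IsCoprime 3 n ∧ IsIntegral ℤ ((n : ℂ) * u) ∧ IsIntegral ℤ ((n : ℂ) * u⁻¹)

/-- `D` has no splitting. -/
def NoSplitting (D : ℕ) : Prop :=
  ∀ d : ZMod 3 → ℕ, ∏ c, d c = D → (∀ c c', c ≠ c' → Nat.Coprime (d c) (d c')) →
    (∀ (c : ZMod 3) (p : ℕ), p.Prime → p ∣ d c →
      ∃ x : ℤ, (p : ℤ) ∣ (d (c + 1) : ℤ) * (d (c + 2) : ℤ) ^ 2 - x ^ 3) →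
    ∃ c, ∀ c', c' ≠ c → d c' = 1

/-- The numbers of the class, and `1`. -/
def Good (m : ℕ) : Prop := m = 1 ∨ InClass m

/-- The `m ≤ X` of the class which are prime to all the `A_i`; if `b` is true, then only the squarefree
ones. -/
def family {k : ℕ} (b : Bool) (A : Fin k → ℕ) (X : ℕ) : Set ℕ :=
  {m | m ≤ X ∧ InClass m ∧ (b = true → Squarefree m) ∧ ∀ i, Nat.Coprime m (A i)}

/-- The share of the `m` of the family up to `X` with the property `P`. -/
noncomputable def share {k : ℕ} (b : Bool) (A : Fin k → ℕ) (P : ℕ → Prop) (X : ℕ) : ℝ :=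
  (({m ∈ family b A X | P m}.ncard : ℕ) : ℝ) / ((family b A X).ncard : ℝ)

/-- The `3`-part of the formula holds for `E_m` with both sides units: `z_m` is a unit at the places
above `3`, `E_m(ℚ)` is finite and the `3`-primary part of the Tate-Shafarevich group is trivial. -/
def Formula (m : ℕ) : Prop :=
  (∃ f, IsLSeries m f ∧ Unit3 (z m f)) ∧ Finite (curve m).toAffine.Point ∧
    ∀ (n : ℕ) (x : Sha (curve m)), 3 ^ n • x = 0 → x = 0

/-- `p₀ = ∏_{i ≥ 1} (1 - 3^{-i})`. -/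
noncomputable def p₀ : ℝ := ∏' i : ℕ, (1 - (1 / 3 : ℝ) ^ (i + 1))

/-- the continuation is unique -/
lemma uniq {m : ℕ} {f g : ℂ → ℂ} (hf : IsLSeries m f) (hg : IsLSeries m g) : f = g := by
  have h1 := hf.1.differentiableOn.analyticOnNhd isOpen_univ
  have h2 := hg.1.differentiableOn.analyticOnNhd isOpen_univ
  refine h1.eq_of_eventuallyEq h2 (z₀ := 2) ?_
  have h3 : {s : ℂ | (3 : ℝ) / 2 < s.re} ∈ nhds (2 : ℂ) := by
    refine (isOpen_lt continuous_const Complex.continuous_re).mem_nhds ?_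
    show (3 : ℝ) / 2 < (2 : ℂ).re
    norm_num
  filter_upwards [h3] with s hs
  exact (hf.2 s hs).unique (hg.2 s hs)

lemma cls {m : ℕ} (hm : InClass m) : Pool.Agent.H462.N9.Tam.Cls3 m :=
  ⟨by have := hm.1; omega, by have := hm.1; omega, hm.2.1, hm.2.2⟩

lemma omega_pos {m : ℕ} (hm : InClass m) : 0 < Omega (eqn m) := by
  have h0 := hm.1
  have h1 := Pool.Agent.Y333.CT.per (3 * m) (by omega)
  have hpos : (0 : ℝ) < ((3 * m : ℕ) : ℝ) := by
    have : 0 < 3 * m := by omega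
    exact_mod_cast this
  have h5 := Pool.Agent.Y715.T.Om.Om_pos
  have h6 := Real.rpow_pos_of_pos hpos (1 / 3 : ℝ)
  have e : eqn m = Pool.Agent.Y703.CT.WD ((3 * m : ℕ) : ℤ) := rfl
  rw [e, h1]
  positivity

theorem each {m : ℕ} (hm : InClass m) :
    IsGloballyMinimal (eqn m) ∧ tamProd (eqn m) = 3 ^ (m.primeFactors.card + 1) ∧
    tors m ≠ 0 ∧ padicValNat 3 (tors m) = 1 ∧ (∃ f, IsLSeries m f) ∧
    ∀ f, IsLSeries m f → Int3 (z m f) ∧
      (Unit3 (z m f) ↔
        Finite (curve m).toAffine.Point ∧ ∀ x : Sha (curve m), 3 • x = 0 → x = 0) ∧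
      (Unit3 (z m f) ↔ NoSplitting (3 * m)) ∧
      (NoSplitting (3 * m) → f 1 ≠ 0 ∧ Formula m) := by
  have hc := cls hm
  obtain ⟨hmin, f, hf, u, hu, hu1, hu2, hu3, hu4, hu5⟩ := Pool.Agent.H462.N9.Fin.fin9 hc
  have htam := Pool.Agent.H462.N9.Tam.tam9 hc
  have hΩ : ((Omega (eqn m) : ℝ) : ℂ) ≠ 0 := by
    exact_mod_cast (omega_pos hm).ne'
  have ht : (tamProd (eqn m) : ℂ) ≠ 0 := by
    have e : tamProd (eqn m) = 3 ^ (m.primeFactors.card + 1) := htam
    rw [e]
    push_cast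
    exact pow_ne_zero _ three_ne_zero
  have htor : (tors m : ℂ) ≠ 0 := by exact_mod_cast hu4
  have hz : z m f = u := by
    have e1 : f 1 = u * (((Omega (eqn m) : ℝ) : ℂ) * (tamProd (eqn m) : ℂ) / (tors m : ℂ) ^ 2) := hu
    unfold z
    rw [e1]
    field_simp
  have hcl : Pool.Agent.Y703.CT.Triv3 (3 * m) ↔
      Finite (curve m).toAffine.Point ∧ ∀ x : Sha (curve m), 3 • x = 0 → x = 0 := by
    constructor
    · rintro ⟨h1, h2⟩
      exact ⟨h1, fun x hx => h2 1 x (by rw [pow_one]; exact hx)⟩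
    · rintro ⟨h1, h2⟩
      have h3 : ∀ (n : ℕ) (x : Sha (curve m)), 3 ^ n • x = 0 → x = 0 := by
        intro n
        induction n with
        | zero => intro x hx; rwa [pow_zero, one_smul] at hx
        | succ n ih =>
          intro x hx
          refine h2 x (ih (3 • x) ?_)
          rw [← mul_smul, ← pow_succ]
          exact hx
      exact ⟨h1, h3⟩
  refine ⟨hmin, htam, hu4, hu5, ⟨f, hf⟩, fun g hg => ?_⟩
  have hfg : g = f := uniq hg hf
  subst hfg
  rw [hz]
  refine ⟨hu1, hu2.trans hcl, hu2.trans hu3, fun hN => ?_⟩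
  obtain ⟨h1, h2⟩ := hu3.2 hN
  have hU : Unit3 u := hu2.2 (hu3.2 hN)
  refine ⟨?_, ⟨g, hg, by rw [hz]; exact hU⟩, h1, h2⟩
  intro h0
  have : z m g = 0 := by
    unfold z
    rw [h0, zero_mul, zero_div]
  rw [hz] at this
  exact hU.1 this

section
variable {k : ℕ} {A : Fin k → ℕ} {b : Bool}

open Filter Pool.Agent.H462.QJ

lemma good_cf {n : ℕ} (hn : Good n) : CfQ n := by
  rcases hn with rfl | h
  · exact Pool.Agent.H508.N.one_cf
  · exact ⟨by have := h.1; omega, h.2.1, h.2.2⟩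

lemma fam_fin (X : ℕ) : (family b A X).Finite := (Set.finite_Iic X).subset fun m hm => hm.1

lemma fam_cf {X m : ℕ} (hm : m ∈ family b A X) : CfQ m := good_cf (Or.inr hm.2.1)

lemma fam_class (hA : ∀ i, Good (A i)) {X m : ℕ} (hm : m ∈ family b A X) (i : Fin k) :
    InClass (A i * m) := by
  have h := Pool.Agent.H508.N.cq_mul (good_cf (hA i)) (fam_cf hm) (hm.2.2.2 i)
  have h1 := hm.2.1.1
  have h2 := Nat.pos_of_ne_zero (good_cf (hA i)).1
  exact ⟨by nlinarith, h.2.1, h.2.2⟩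

lemma fam_true (A : Fin k → ℕ) (X : ℕ) : family true A X = FaA A X := by
  ext m
  constructor
  · rintro ⟨h1, h2, h3, h5⟩
    exact ⟨h1, h2.1, h3 rfl, h2.2.1, h5⟩
  · rintro ⟨h1, h2, h3, h4, h5⟩
    exact ⟨h1, ⟨h2, h4, (Pool.Agent.H508.N.sq_cf ⟨h3, h4⟩).2.2⟩, fun _ => h3, h5⟩

lemma fam_false (A : Fin k → ℕ) (X : ℕ) : family false A X = Pool.Agent.H508.N.FaD A X := by
  ext m
  constructor
  · rintro ⟨h1, h2, -, h5⟩
    exact ⟨h1, h2.1, h2.2.1, h2.2.2, h5⟩
  · rintro ⟨h1, h2, h3, h4, h5⟩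
    exact ⟨h1, ⟨h2, h3, h4⟩, fun h => absurd h (by decide), h5⟩

lemma fam_low (hA : ∀ i, Good (A i)) : ∃ c : ℝ, 0 < c ∧ ∃ X₀ : ℕ, ∀ X : ℕ, X₀ ≤ X →
    c * (X / Real.sqrt (Real.log X)) ≤ ((family b A X).ncard : ℝ) := by
  obtain ⟨c, X₀, hc0, h⟩ := faA_low fun i => good_cf (hA i)
  refine ⟨c, hc0, max X₀ 3, fun X hX => ?_⟩
  have h2 : c * (X / Real.sqrt (Real.log X)) ≤ ((family true A X).ncard : ℝ) := by
    rw [fam_true]
    refine le_trans (le_of_eq ?_) (h X ((le_max_left _ _).trans hX))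
    have hX3 : 3 ≤ X := (le_max_right _ _).trans hX
    have h1 : 0 < Real.log X := Real.log_pos (by exact_mod_cast (by omega : 1 < X))
    rw [Real.rpow_neg h1.le, ← Real.sqrt_eq_rpow, mul_assoc, div_eq_mul_inv]
  refine h2.trans ?_
  norm_cast
  exact Set.ncard_le_ncard (fun m hm => ⟨hm.1, hm.2.1, fun _ => hm.2.2.1 rfl, hm.2.2.2⟩)
    (fam_fin X)

/-- the corank -/
noncomputable def cork (A : Fin k → ℕ) (m : ℕ) (i : Fin k) : ℕ :=
  Nat.log 3 (Pool.Agent.H462.N9.Law.Spl (3 * (A i * m))).ncard - 1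

lemma cork_iff (hA : ∀ i, Good (A i)) {X m : ℕ} (hm : m ∈ family b A X) (i : Fin k) (r : ℕ) :
    cork A m i = r ↔ (Pool.Agent.H462.N9.Law.Spl (3 * (A i * m))).ncard = 3 ^ (r + 1) := by
  have h := Pool.Agent.H508.N.cq_mul (good_cf (hA i)) (fam_cf hm) (hm.2.2.2 i)
  obtain ⟨s, hs⟩ := exists_r h
  unfold cork
  rw [hs, Nat.log_pow (by norm_num)]
  constructor
  · intro h1
    congr 1
    omega
  · intro h1
    have := Nat.pow_right_injective (by norm_num : 2 ≤ 3) h1
    omega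

lemma formula_iff (hA : ∀ i, Good (A i)) {X m : ℕ} (hm : m ∈ family b A X) (i : Fin k) :
    Formula (A i * m) ↔ cork A m i = 0 := by
  have hc := fam_class hA hm i
  have h1 := hc.1
  rw [cork_iff hA hm]
  constructor
  · rintro ⟨⟨f, hf, hU⟩, -⟩
    obtain ⟨-, -, -, -, -, h⟩ := each hc
    have hN := (h f hf).2.2.1.1 hU
    have := (Pool.Agent.H462.N9.Law.noSplit_iff (D := 3 * (A i * m)) (by omega) (by omega)).1 hN
    rw [this]
    norm_num
  · intro hr
    have hN : NoSplitting (3 * (A i * m)) :=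
      (Pool.Agent.H462.N9.Law.noSplit_iff (by omega) (by omega)).2 (by rw [hr]; rfl)
    obtain ⟨-, -, -, -, ⟨f, hf⟩, h⟩ := each hc
    exact ((h f hf).2.2.2 hN).2

theorem law (hk : k ≠ 0) (hA : ∀ i, Good (A i)) (hinj : Function.Injective A) (r : Fin k → ℕ) :
    Tendsto (Pool.Agent.H508.W.shr (family b A) fun m => cork A m = r) atTop
      (nhds (∏ i, Pool.Agent.H462.N9.Law.ur (r i))) := by
  have hset : ∀ X, {m ∈ family b A X | cork A m = r} = {m ∈ family b A X | ∀ i,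
      (Pool.Agent.H462.N9.Law.Spl (3 * (A i * m))).ncard = 3 ^ (r i + 1)} := by
    intro X
    ext m
    constructor
    · rintro ⟨h1, h2⟩
      exact ⟨h1, fun i => (cork_iff hA h1 i _).1 (congrFun h2 i)⟩
    · rintro ⟨h1, h2⟩
      exact ⟨h1, funext fun i => (cork_iff hA h1 i _).2 (h2 i)⟩
  cases b with
  | true =>
    refine (lawA (fun i => good_cf (hA i)) hinj r).congr fun X => ?_
    unfold Pool.Agent.H508.W.shr
    rw [hset, fam_true]
  | false =>
    have : Nonempty (Fin k) := ⟨⟨0, Nat.pos_of_ne_zero hk⟩⟩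
    refine (Pool.Agent.H508.N.lawD (fun i => good_cf (hA i)) hinj r).congr fun X => ?_
    unfold Pool.Agent.H508.W.shr
    rw [hset, fam_false]

theorem law_set (hk : k ≠ 0) (hA : ∀ i, Good (A i)) (hinj : Function.Injective A)
    (T : Finset (Fin k)) :
    Tendsto (share b A fun m => ∀ i, Formula (A i * m) ↔ i ∈ T) atTop
      (nhds (p₀ ^ T.card * (1 - p₀) ^ (k - T.card))) := by
  have h := Pool.Agent.H508.W.exact_law (C := family b A) (f := cork A)
    (p := Pool.Agent.H462.N9.Law.ur) (fun X => fam_fin X)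
    (Pool.Agent.H462.N9.Law.ur_hasSum Pool.Agent.Y461.CX.t_C3) (law hk hA hinj) T
  rw [Pool.Agent.H462.N9.Law.ur_zero] at h
  refine h.congr fun X => ?_
  unfold Pool.Agent.H508.W.shr share
  congr 2
  congr 1
  congr 1
  ext m
  constructor
  · rintro ⟨h1, h2⟩
    exact ⟨h1, fun i => (formula_iff hA h1 i).trans (h2 i)⟩
  · rintro ⟨h1, h2⟩
    exact ⟨h1, fun i => (formula_iff hA h1 i).symm.trans (h2 i)⟩

end

/-- **Main theorem.** -/
theorem result :
    -- (1) the formula modulo three, for each `m` of the class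
    (∀ m : ℕ, InClass m →
      IsGloballyMinimal (eqn m) ∧ tamProd (eqn m) = 3 ^ (m.primeFactors.card + 1) ∧
      tors m ≠ 0 ∧ padicValNat 3 (tors m) = 1 ∧ (∃ f, IsLSeries m f) ∧
      ∀ f, IsLSeries m f → Int3 (z m f) ∧
        (Unit3 (z m f) ↔
          Finite (curve m).toAffine.Point ∧ ∀ x : Sha (curve m), 3 • x = 0 → x = 0) ∧
        (Unit3 (z m f) ↔ NoSplitting (3 * m)) ∧
        (NoSplitting (3 * m) → f 1 ≠ 0 ∧ Formula m)) ∧
    (∀ (b : Bool) (k : ℕ) (A : Fin k → ℕ), k ≠ 0 → (∀ i, Good (A i)) → Function.Injective A →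
      -- (2) the `A_i m` are in the class, and the number of the `m`
      (∀ X : ℕ, ∀ m ∈ family b A X, ∀ i, InClass (A i * m)) ∧
      (∃ c : ℝ, 0 < c ∧ ∃ X₀ : ℕ, ∀ X : ℕ, X₀ ≤ X →
        c * (X / Real.sqrt (Real.log X)) ≤ ((family b A X).ncard : ℝ)) ∧
      -- (3) the exact densities
      ∀ T : Finset (Fin k), Filter.Tendsto
        (share b A fun m => ∀ i, Formula (A i * m) ↔ i ∈ T) Filter.atTop
        (nhds (p₀ ^ T.card * (1 - p₀) ^ (k - T.card)))) ∧
    0.56 < p₀ ∧ p₀ < 0.5602 :=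
  ⟨fun m hm => each hm, fun b k A hk hA hinj => ⟨fun X m hm i => fam_class hA hm i, fam_low hA,
    law_set hk hA hinj⟩, Pool.Agent.Y461.CX.t_C3.2.2.2, Pool.Agent.H462.N9.Law.c3_lt⟩

end Pool.Agent.Results.MP_9c97e9_nt.CubeSumThreePart
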