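import Pool.Agent.H427.QT.Asm

/-!
# The 2-part of the formula of Birch and Swinnerton-Dyer for the quartic twists `y² = x³ - D x` over `ℚ`

`D` runs over the squarefree numbers `≡ 13 mod 16` all of whose prime factors are `≡ 1 mod 4` (in any
number; the residue symbols of the prime factors are arbitrary), and `E_D : y² = x³ - D x`. These curves
are quartic twists of `y² = x³ - x` by characters of conductor divisible by all the prime factors of `D`;
no two of them are quadratic twists of each other (`D / D'` is not a square). Let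
`z = L(E_D, 1) #E_D(ℚ)_tors² / (Ω ∏ c_p)`, the order of `Ш(E_D/ℚ)` predicted by the formula in rank zero.
With no hypothesis on the rank or on `Ш`:
* the equation is minimal, `L(E_D, s)` is entire, the order of the torsion group is twice an odd number,
  `∏ c_p = 2 ^ (ω(D) + 1)`;
* `z` is integral at all the valuations of `ℂ` above two, and it is a unit at any given one iff
  `E_D(ℚ)` is finite and `Ш(E_D/ℚ)[2] = 0` (the formula modulo two for ALL the `D` of the class);
* this is so iff `D` has no decomposition `D = d₁ d₂`, `d₁, d₂ > 1`, such that `d₁` is a square modulo all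
  the prime factors of `d₂` and conversely (by Rédei and Reichardt: iff the narrow class group of
  `ℚ(√D)` has no element of order four); then `L(E_D, 1) ≠ 0`, `E_D(ℚ)` is finite,
  `Ш(E_D/ℚ)[2^∞] = 0` and the 2-part of the formula holds;
* there are infinitely many such `D` with exactly `n` prime factors, for every `n ≥ 1`.
-/

set_option autoImplicit false

namespace Pool.Agent.Results.MP_9c97e9_nt.QuarticTwists

open Pool.Agent.H427.QT
open Pool.Agent.W97.MT (IsGloballyMinimal)
open Pool.Agent.Y695 (IsLFun)

theorem result :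
    (∀ D : ℕ, Family D →
      IsGloballyMinimal (E D) ∧
      (∃ m : ℕ, Odd m ∧ torsOrder (E D) = 2 * m) ∧
      tamProd (E D) = 2 ^ (D.primeFactors.card + 1) ∧
      (RankZeroShaTwo (E D) ↔ NoDecomp D) ∧
      ∃ Λ : ℂ → ℂ, IsLFun (E D) Λ ∧
        (∀ (Γ : Type) [LinearOrderedCommGroupWithZero Γ] (v : Valuation ℂ Γ), v 2 < 1 →
          v (anOrder (E D) (Λ 1)) ≤ 1 ∧
            (v (anOrder (E D) (Λ 1)) = 1 ↔ RankZeroShaTwo (E D))) ∧
        (RankZeroShaTwo (E D) → TwoPart (E D) Λ)) ∧
    ∀ n : ℕ, 1 ≤ n →
      {D : ℕ | Family D ∧ D.primeFactors.card = n ∧ RankZeroShaTwo (E D)}.Infinite := by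
  refine ⟨fun D h => ?_, fun n hn => ?_⟩
  · obtain ⟨h1, h2, h3⟩ := final h
    obtain ⟨h4, h5⟩ := extra h
    exact ⟨h1, h4, h5, h2, h3⟩
  · refine (inf_noDecomp hn).mono ?_
    rintro D ⟨h1, h2, h3⟩
    exact ⟨h1, h2, (final h1).2.1.2 h3⟩

end Pool.Agent.Results.MP_9c97e9_nt.QuarticTwists
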