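import Pool.Agent.H290.X14.Root
import Pool.Agent.H290.X14.Den

/-!
# The formula of Birch and Swinnerton-Dyer modulo two for the quadratic twists of `X_0(14)`

`D` runs over all squarefree integers `D = 1 mod 4` (positive and negative) that are prime to `7`, and
`E_D` is the quadratic twist by `D` of `E = X_0(14) : y² + x y + y = x³ + 4 x - 6`. Let
`x = L(E_D, 1) #E_D(ℚ)_tors² / (Ω ∏ c_p)`, the number that is equal to `#Ш(E_D/ℚ)` in rank zero
according to the conjecture. A prime `p` is of type `A` if `2` is a square and `-7` is not a square modulo `p`, of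
type `B` if `-7` is a square and `2` is not a square modulo `p`; `nA`, `nB` are the numbers of the prime
divisors of `D` of these types. With no hypothesis on the rank or on `Ш`:
* `x` is rational, and if it is not zero its 2-adic valuation is even and at least `max (0, nA - nB)`;
* if `nB ≤ nA`, then `x` is a 2-adic unit (in particular `L(E_D, 1) ≠ 0`) if and only if `E_D(ℚ)` is
  finite and `Ш(E_D/ℚ)[2] = 0`; this is the formula modulo two;
* both are equivalent to `nA = nB` and the nonsingularity of an explicit square matrix over `𝔽₂` of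
  quadratic symbols `(q/p)` between the prime divisors of `D`, whose diagonal contains the
  representability of `p` by `2 a² + 7 b²`;
* among the `D` with `nA = nB`, in each of the four classes `|D| = r mod 8`, the 2-part of the formula holds
  with both sides odd, `L(E_D, 1) ≠ 0`, `E_D(ℚ)` finite and `Ш(E_D/ℚ)[2^∞] = 0`, for the exact proportion
  `∏_{i ≥ 1} (1 - 2^{-i}) = 0.2887...`; there are at least `c X / √(log log X)` of them with `|D| ≤ X`.
-/

set_option autoImplicit false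

open Filter Topology WeierstrassCurve

namespace Pool.Agent.Results.MP_9c97e9_nt.TwistsOfX014ModTwo

open Pool.Agent.TH841.SH.D (Sha)
open Pool.Agent.W97.MT (IsGloballyMinimal)
open Pool.Agent.Y700 (IsL)
open Pool.Agent.Y682.XF (realPeriod tors)
open Pool.Agent.H290.X14 (Tam)

/-- the equation of the quadratic twist `E_D`, `D = 1 mod 4`, of `X_0(14)` -/
def E (D : ℤ) : WeierstrassCurve ℤ :=
  ⟨1, (D - 1) / 4, 1, (9 * D ^ 2 - 1) / 2, -((23 * D ^ 3 + 1) / 4)⟩

/-- the curve over `ℚ` -/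
abbrev EQ (D : ℤ) : WeierstrassCurve ℚ := (E D).map (Int.castRingHom ℚ)

/-- `2` is a square modulo the odd prime `p` -/
def Two (p : ℕ) : Prop := p % 8 = 1 ∨ p % 8 = 7

/-- `-7` is a square modulo the odd prime `p ≠ 7` -/
def Sev (p : ℕ) : Prop := p % 7 = 1 ∨ p % 7 = 2 ∨ p % 7 = 4

open Classical in
/-- the number of the prime divisors of type `A` -/
noncomputable def nA (D : ℤ) : ℕ := (D.natAbs.primeFactors.filter fun p => Two p ∧ ¬ Sev p).card

open Classical in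
/-- the number of the prime divisors of type `B` -/
noncomputable def nB (D : ℤ) : ℕ := (D.natAbs.primeFactors.filter fun p => ¬ Two p ∧ Sev p).card

/-- the family -/
def Fam (D : ℤ) : Prop := Squarefree D ∧ D % 4 = 1 ∧ ¬ (7 : ℤ) ∣ D

/-- `x` is the analytic order of `Ш(E_D/ℚ)` in rank zero:
`L(E_D, 1) = x Ω ∏ c_p / #E_D(ℚ)_tors²`, where `Λ` is the entire continuation of the `L`-function -/
def IsAn (D : ℤ) (x : ℚ) : Prop := ∃ Λ : ℂ → ℂ, IsL (E D) Λ ∧
  Λ 1 = ((x * realPeriod (E D) * Tam (E D) / (Nat.card (tors ℚ (E D))) ^ 2 : ℝ) : ℂ)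

/-- `E_D(ℚ)` is finite and `Ш(E_D/ℚ)[2] = 0` -/
def RankZeroShaTwo (D : ℤ) : Prop :=
  Finite (EQ D).toAffine.Point ∧ ∀ y : Sha (EQ D), 2 • y = 0 → y = 0

/-- the formula modulo two -/
def FormulaModTwo (D : ℤ) : Prop := IsGloballyMinimal (E D) ∧
  (∃ C : VariableChange ℚ, C • EQ D = ⟨0, 13 * D, 0, 128 * (D : ℚ) ^ 2, 0⟩) ∧
  ∃ x : ℚ, IsAn D x ∧ (∀ y : ℚ, IsAn D y → y = x) ∧
    (x ≠ 0 → Even (padicValRat 2 x) ∧ 0 ≤ padicValRat 2 x ∧
      (nA D : ℤ) - nB D ≤ padicValRat 2 x) ∧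
    (nB D ≤ nA D → ((x ≠ 0 ∧ padicValRat 2 x = 0) ↔ RankZeroShaTwo D))

/-- the 2-part of the formula, both sides odd: `L(E_D, 1) ≠ 0`, the analytic order of `Ш(E_D/ℚ)` is
a 2-adic unit, `E_D(ℚ)` is finite and the 2-primary part of `Ш(E_D/ℚ)` is trivial -/
def TwoPart (D : ℤ) : Prop := (∃ x : ℚ, IsAn D x ∧ x ≠ 0 ∧ padicValRat 2 x = 0) ∧
  Finite (EQ D).toAffine.Point ∧ ∀ (k : ℕ) (y : Sha (EQ D)), 2 ^ k • y = 0 → y = 0

open Classical in
/-- `1` iff `p` is not a square modulo `q` -/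
noncomputable def nr (q p : ℕ) : ZMod 2 := if IsSquare (p : ZMod q) then 0 else 1

open Classical in
/-- `1` iff `p = 2 a² + 7 b²` -/
noncomputable def hX (p : ℕ) : ZMod 2 := if ∃ a b : ℕ, p = 2 * a ^ 2 + 7 * b ^ 2 then 1 else 0

/-- the matrix with the rows `p ∣ D`, `-7` a square modulo `p`, and the columns `q ∣ D`, `2` a square
modulo `q`, has trivial kernel: the entries are `[p/q]`, on the diagonal `∑_{q ≠ p} [p/q] + hX p` -/
def Regular (D : ℤ) : Prop := ∀ v : ℕ → ZMod 2,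
  (∀ p ∈ D.natAbs.primeFactors, ¬ Two p → v p = 0) →
  (∀ p ∈ D.natAbs.primeFactors, Sev p →
    ∑ q ∈ D.natAbs.primeFactors, nr q p * (v q + v p) + hX p * v p = 0) →
  ∀ p ∈ D.natAbs.primeFactors, v p = 0

/-- the discriminant `D = ± n = 1 mod 4` -/
def dsc (n : ℕ) : ℤ := if n % 4 = 1 then (n : ℤ) else -(n : ℤ)

open Classical in
/-- the number of the `D` with `|D| ≤ X`, `|D| = r mod 8`, `nA = nB` and the property `Q` -/
noncomputable def num (Q : ℤ → Prop) (r X : ℕ) : ℕ := ((Finset.Icc 1 X).filter fun n =>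
  Fam (dsc n) ∧ n % 8 = r ∧ nA (dsc n) = nB (dsc n) ∧ Q (dsc n)).card

/-- the constant `0.2887...` -/
noncomputable def eta : ℝ := ∏' i : ℕ, (1 - (1 / 2 : ℝ) ^ (i + 1))

section proof

open Pool.Agent.H290.X14 hiding EQ dsc
open Pool.Agent.NH1 (sq2 sq7 sS sI sA sB DD gX)
open Pool.Agent.NH5.GD (Adm)
open Pool.Agent.NH5.PR (Gd)

theorem E_eq (D : ℤ) : E D = Pool.Agent.Y700.WM D := rfl

theorem nA_eq (D : ℤ) : nA D = (sA (Ps D)).card := by
  unfold nA sA
  refine congrArg Finset.card (Finset.ext fun p => ?_)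
  simp only [Finset.mem_filter]
  exact Iff.rfl

theorem nB_eq (D : ℤ) : nB D = (sB (Ps D)).card := by
  unfold nB sB
  refine congrArg Finset.card (Finset.ext fun p => ?_)
  simp only [Finset.mem_filter]
  exact Iff.rfl

theorem adm {D : ℤ} (h : Fam D) : Adm D := ⟨h.1, h.2.1, h.2.2⟩

theorem an_unique {D : ℤ} (h : Fam D) {x y : ℚ} (hx : IsAn D x) (hy : IsAn D y) : x = y := by
  obtain ⟨f, hf, hf1⟩ := hx
  obtain ⟨g, hg, hg1⟩ := hy
  have e : f = g := Pool.Agent.Y700.IsL.unique hf hg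
  rw [← e, hf1] at hg1
  have h1 := Complex.ofReal_injective hg1
  have hΩ : (realPeriod (E D)) ≠ 0 := (per_pos h.2.1).ne'
  have hT : ((Nat.card (tors ℚ (E D)) : ℕ) : ℝ) ≠ 0 := by
    exact_mod_cast tor_ne h.2.1
  have hc : ((Tam (E D) : ℕ) : ℝ) ≠ 0 := by exact_mod_cast Tam_ne (adm h)
  have h2 : (x : ℝ) * realPeriod (E D) * Tam (E D) = y * realPeriod (E D) * Tam (E D) := by
    have h3 := congrArg (fun z : ℝ => z * ((Nat.card (tors ℚ (E D)) : ℕ) : ℝ) ^ 2) h1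
    rwa [div_mul_cancel₀ _ (pow_ne_zero 2 hT), div_mul_cancel₀ _ (pow_ne_zero 2 hT)] at h3
  have h4 := mul_right_cancel₀ hΩ (mul_right_cancel₀ hc h2)
  exact_mod_cast h4

theorem alg_eq (D : ℤ) : RankZeroShaTwo D ↔ Alg D := by
  unfold RankZeroShaTwo Alg
  simp only [two_nsmul]
  exact Iff.rfl

theorem sha_pow {D : ℤ} (h : RankZeroShaTwo D) (k : ℕ) (y : Sha (EQ D)) (hy : 2 ^ k • y = 0) :
    y = 0 := by
  induction k with
  | zero => simpa using hy
  | succ k ih =>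
    rw [pow_succ', mul_smul] at hy
    exact ih (h.2 _ hy)

theorem u_unit {u : ℤ} (h : (u : ZMod 2) ≠ 0) : u ≠ 0 ∧ padicValInt 2 u = 0 := by
  have h1 : ¬ (2 : ℤ) ∣ u := fun hd => h ((ZMod.intCast_zmod_eq_zero_iff_dvd u 2).2 (by exact_mod_cast hd))
  refine ⟨by rintro rfl; exact h1 (dvd_zero _), ?_⟩
  unfold padicValInt
  exact padicValNat.eq_zero_of_not_dvd fun hd => h1 (Int.natCast_dvd.2 hd)

theorem unit_u {u : ℤ} (h0 : u ≠ 0) (h : padicValInt 2 u = 0) : (u : ZMod 2) ≠ 0 := by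
  have : Fact (Nat.Prime 2) := ⟨Nat.prime_two⟩
  intro hz
  have h1 : ((2 : ℕ) : ℤ) ∣ u := (ZMod.intCast_zmod_eq_zero_iff_dvd u 2).1 hz
  have h2 : 2 ∣ u.natAbs := Int.natCast_dvd.1 h1
  have h3 := one_le_padicValNat_of_dvd (Int.natAbs_ne_zero.2 h0) h2
  unfold padicValInt at h
  omega

/-- all the statements for one `D` -/
theorem main {D : ℤ} (h : Fam D) : FormulaModTwo D ∧ (nB D ≤ nA D →
    (TwoPart D ↔ RankZeroShaTwo D) ∧ (RankZeroShaTwo D ↔ nA D = nB D ∧ DD gX (Ps D) ≠ 0)) := by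
  have hD := adm h
  have hmin := Pool.Agent.Y814.BSD14.min D h.2.1 h.1 h.2.2
  have halg : nB D ≤ nA D → (RankZeroShaTwo D ↔ nA D = nB D ∧ DD gX (Ps D) ≠ 0) := by
    intro hc
    rw [alg_eq, nA_eq, nB_eq]
    rw [nA_eq, nB_eq] at hc
    exact alg_iff hD hc
  -- the analytic order
  obtain ⟨x, hx, hx1, hx2⟩ : ∃ x : ℚ, IsAn D x ∧ (x ≠ 0 → Even (padicValRat 2 x) ∧
      0 ≤ padicValRat 2 x ∧ (nA D : ℤ) - nB D ≤ padicValRat 2 x) ∧
      (nB D ≤ nA D → ((x ≠ 0 ∧ padicValRat 2 x = 0) ↔ RankZeroShaTwo D)) := by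
    by_cases hr : sq2 D.natAbs ↔ sq7 D.natAbs
    · obtain ⟨f, x, u, hf, hf1, hu0, hu1, hd⟩ := core ⟨hD, hr⟩
      have hAn : IsAn D x := ⟨f, hf, hf1⟩
      have hmod : (sA (Ps D)).card % 2 = (sB (Ps D)).card % 2 := by
        have h1 := Pool.Agent.NH1.PM.sq2_pr (Pm_Ps hD)
        have h2 := Pool.Agent.NH1.PM.sq7_pr (Pm_Ps hD)
        rw [pr_Ps hD] at h1 h2
        rw [h1, h2, Nat.even_iff, Nat.even_iff] at hr
        omega
      refine ⟨x, hAn, fun hx0 => ?_, fun hc => ?_⟩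
      · have hu : u ≠ 0 := fun hu => hx0 (hu0 hu)
        obtain ⟨-, hv⟩ := hu1 hu
        rw [hv, nA_eq, nB_eq]
        refine ⟨?_, ?_, ?_⟩
        · rw [Int.even_iff]
          rcases le_total (sA (Ps D)).card (sB (Ps D)).card with hm | hm
          · rw [max_eq_right hm]; omega
          · rw [max_eq_left hm]; omega
        · rcases le_total (sA (Ps D)).card (sB (Ps D)).card with hm | hm
          · rw [max_eq_right hm]; omega
          · rw [max_eq_left hm]; omega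
        · rcases le_total (sA (Ps D)).card (sB (Ps D)).card with hm | hm
          · rw [max_eq_right hm]; omega
          · rw [max_eq_left hm]; omega
      · rw [halg hc]
        rw [nA_eq, nB_eq] at hc ⊢
        constructor
        · rintro ⟨hx0, hv⟩
          have hu : u ≠ 0 := fun hu => hx0 (hu0 hu)
          obtain ⟨-, hv'⟩ := hu1 hu
          rw [hv, max_eq_left hc] at hv'
          have e1 : (sA (Ps D)).card = (sB (Ps D)).card := by omega
          have e2 : padicValInt 2 u = 0 := by omega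
          refine ⟨e1, ?_⟩
          rw [← hd e1]
          exact unit_u hu e2
        · rintro ⟨e1, e2⟩
          rw [← hd e1] at e2
          obtain ⟨hu, hv⟩ := u_unit e2
          obtain ⟨hx0, hv'⟩ := hu1 hu
          refine ⟨hx0, ?_⟩
          rw [hv', hv, e1, max_self]
          simp
    · obtain ⟨f, hf, hf1⟩ := zero_val hD hr
      refine ⟨0, ⟨f, hf, ?_⟩, fun h0 => absurd rfl h0, fun hc => ?_⟩
      · rw [hf1]; simp
      · rw [halg hc]
        have hne : nA D ≠ nB D := by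
          rw [nA_eq, nB_eq]
          intro he
          apply hr
          have h1 := Pool.Agent.NH1.PM.sq2_pr (Pm_Ps hD)
          have h2 := Pool.Agent.NH1.PM.sq7_pr (Pm_Ps hD)
          rw [pr_Ps hD] at h1 h2
          rw [h1, h2, he]
        exact ⟨fun h0 => absurd rfl h0.1, fun h0 => absurd h0.1 hne⟩
  refine ⟨⟨hmin.1, hmin.2.2, x, hx, fun y hy => an_unique h hy hx, hx1, hx2⟩, fun hc =>
    ⟨⟨fun ht => ⟨ht.2.1, fun y hy => ht.2.2 1 y (by rwa [pow_one])⟩, fun hr => ?_⟩, halg hc⟩⟩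
  exact ⟨⟨x, hx, (hx2 hc).2 hr⟩, hr.1, sha_pow hr⟩

theorem reg_iff (D : ℤ) : Regular D ↔ Gd gX (Ps D) := by
  unfold Regular Gd Pool.Agent.NH5.PR.Sol
  have h1 : ∀ q p : ℕ, Pool.Agent.Y703.CQ.nr q p = nr q p := fun _ _ => rfl
  have h2 : ∀ p : ℕ, gX p = hX p := fun _ => rfl
  constructor
  · intro h x hx
    exact h x hx.1 hx.2
  · intro h x hx hx2
    exact h x ⟨hx, hx2⟩

theorem det_iff {D : ℤ} (h : Fam D) (hc : nA D = nB D) : DD gX (Ps D) ≠ 0 ↔ Regular D := by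
  rw [reg_iff]
  refine (gd_iff (fun p hp => ((mem_Ps (adm h)).1 hp).1) ?_).symm
  rwa [nA_eq, nB_eq] at hc

theorem fam_dsc {r n : ℕ} (hr : r = 1 ∨ r = 3 ∨ r = 5 ∨ r = 7) :
    (Fam (dsc n) ∧ n % 8 = r ∧ nA (dsc n) = nB (dsc n)) ↔ Bal r n := by
  have e0 : (dsc n).natAbs = n := Pool.Agent.H290.X14.dsc_abs n
  have e1 : Ps (dsc n) = n.primeFactors := by unfold Ps; rw [e0]
  rw [nA_eq, nB_eq, e1]
  unfold Fam Bal
  have h7 : (7 : ℤ) ∣ dsc n ↔ 7 ∣ n := by
    rw [show (7 : ℤ) = ((7 : ℕ) : ℤ) by norm_num, Int.natCast_dvd, e0]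
  rw [← Int.squarefree_natAbs, e0, h7]
  constructor
  · rintro ⟨⟨h1, -, h2⟩, h3, h4⟩
    exact ⟨h1, h2, h3, h4⟩
  · rintro ⟨h1, h2, h3, h4⟩
    refine ⟨⟨h1, ?_, h2⟩, h3, h4⟩
    unfold dsc
    split_ifs <;> omega

theorem num_all {r : ℕ} (hr : r = 1 ∨ r = 3 ∨ r = 5 ∨ r = 7) (X : ℕ) :
    num (fun _ => True) r X = (open Classical in ((Finset.Icc 1 X).filter fun n => Bal r n).card) := by
  classical
  unfold num
  refine congrArg Finset.card (Finset.ext fun n => ?_)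
  simp only [Finset.mem_filter, and_true]
  rw [fam_dsc hr]

theorem num_two {r : ℕ} (hr : r = 1 ∨ r = 3 ∨ r = 5 ∨ r = 7) (X : ℕ) :
    num TwoPart r X = (open Classical in ((Finset.Icc 1 X).filter fun n => Bal r n ∧
      Gd gX n.primeFactors).card) := by
  classical
  unfold num
  refine congrArg Finset.card (Finset.ext fun n => ?_)
  simp only [Finset.mem_filter]
  have e0 : (dsc n).natAbs = n := Pool.Agent.H290.X14.dsc_abs n
  have e1 : Ps (dsc n) = n.primeFactors := by unfold Ps; rw [e0]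
  refine and_congr_right fun _ => ?_
  rw [← fam_dsc hr]
  constructor
  · rintro ⟨h1, h2, h3, h4⟩
    refine ⟨⟨h1, h2, h3⟩, ?_⟩
    have h5 := (main h1).2 h3.ge
    have h6 := (h5.2.1 (h5.1.1 h4)).2
    rw [det_iff h1 h3, reg_iff, e1] at h6
    exact h6
  · rintro ⟨⟨h1, h2, h3⟩, h4⟩
    refine ⟨h1, h2, h3, ?_⟩
    have h5 := (main h1).2 h3.ge
    refine h5.1.2 (h5.2.2 ⟨h3, ?_⟩)
    rw [det_iff h1 h3, reg_iff, e1]
    exact h4

end proof

theorem result :
    (∀ D : ℤ, Fam D → FormulaModTwo D) ∧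
    (∀ D : ℤ, Fam D → nB D ≤ nA D →
      (TwoPart D ↔ RankZeroShaTwo D) ∧ (RankZeroShaTwo D ↔ nA D = nB D ∧ Regular D)) ∧
    (∀ r : ℕ, r = 1 ∨ r = 3 ∨ r = 5 ∨ r = 7 →
      Tendsto (fun X : ℕ => (num TwoPart r X : ℝ) / (num (fun _ => True) r X : ℝ)) atTop (𝓝 eta) ∧
      ∃ (c : ℝ) (X₀ : ℕ), 0 < c ∧ ∀ X : ℕ, X₀ ≤ X →
        c * X / √(Real.log (Real.log X)) ≤ (num TwoPart r X : ℝ)) ∧
    0.2887 < eta ∧ eta < 0.2888 := by
  refine ⟨fun D h => (main h).1, fun D h hc => ?_, fun r hr => ⟨?_, ?_⟩,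
    Pool.Agent.NH5.PR.t_ETA.2.2.2.1, Pool.Agent.NH5.PR.t_ETA.2.2.2.2⟩
  · obtain ⟨h1, h2⟩ := (main h).2 hc
    refine ⟨h1, ?_⟩
    rw [h2]
    exact and_congr_right fun he => det_iff h he
  · have h := Pool.Agent.H290.X14.den hr
    simp only [num_two hr, num_all hr]
    exact h
  · obtain ⟨c, X₀, hc, h⟩ := Pool.Agent.H290.X14.low hr
    refine ⟨c, X₀, hc, fun X hX => ?_⟩
    rw [num_two hr]
    exact h X hX

end Pool.Agent.Results.MP_9c97e9_nt.TwistsOfX014ModTwo
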