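import Pool.Agent.H345.X24.Bsd
import Pool.Agent.H345.X24.Jnt
import Pool.Graph.R_pool_sql_team_seeded_63374d34.N877.P24.Tor

/-!
# The 2-part of the Birch and Swinnerton-Dyer formula for the twists of `X_0(24)` by all the numbers
# `-n`, `n ≡ 11 mod 24`

`E_n` is the quadratic twist by `-n` of `X_0(24)`, `y² = x (x + n) (x - 3 n)`.  Here `n` is any
squarefree number `≡ 11` modulo `24`, with no condition on its prime factors: `-n` runs over the
fundamental discriminants `D < 0`, `D ≡ 5 mod 8`, such that `3` splits in `ℚ(√D)`.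

The theorem, with no hypothesis on the rank or on `Ш`:
* for EVERY such `n`: the equation is minimal, `#E_n(ℚ)_tors = 4`, the product of the Tamagawa numbers is
  `4 ^ (k + 1)`, `k` the number of the primes dividing `n`, `L(E_n, s)` is entire, and the order of
  `Ш(E_n/ℚ)` predicted by the formula of the problem, `L(E_n, 1) #E_n(ℚ)_tors² / (Ω ∏ c_p)`, is the
  square `y²` of an integer `y`;
* `y` is odd if and only if `E_n(ℚ)` is finite and `Ш(E_n/ℚ)[2^∞] = 0`, and if and only if the explicit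
  criterion `Good n` in terms of quadratic residue symbols holds (the kernel of Rédei's matrix of
  `ℚ(√-n)` is as small as possible: the class group has no element of order four); then the formula
  holds at the prime two (`TwoPart n`);
* `TwoPart n` holds exactly for the proportion `c = ∏ (1 - 2^(-i)) = 0.2887...` of the `n`;
* for all `M` and all different squarefree `m_1, …, m_M ≡ 1 mod 24` the proportion of the `n` such that
  the formula at two holds in this way for the twists by all the `-n m_t` is exactly `c ^ M`.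

Proof.  The value at `1` in terms of a sum of signs over the representations of `n` by three squares
and the parity of this sum are from the library (projects N971/MF, N877/P24, N878/P24, of run 63374d34),
the descent to homogeneous spaces is from `H464/XB` (helper464), the law of the Rédei matrices from run
3dad9d7b (NH4/XJ).  New here (`Pool/Agent/H345/X24`): the local conditions at `2`, `3` and the primes of
`n` (`Loc`, `Two`, `Sel`, `SelB`), the Selmer group and Rédei's kernel (`SelC`: the Selmer group has four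
elements if and only if the kernel has two, although its order is not determined by the kernel in
general), Tamagawa numbers (`Tam`), torsion (`Tors`), the joint law (`JL`, `Jnt`).
-/

set_option autoImplicit false

open Filter Topology MeasureTheory

namespace Pool.Agent.Results.MP_9c97e9_nt.TwistsOfX024

open Pool.Agent.TH841.SH.D (Sha)

/-- the equation `y² = x (x + n) (x - 3 n)` -/
def W (n : ℕ) : WeierstrassCurve ℤ := ⟨0, -(2 * n), 0, -(3 * n ^ 2), 0⟩

/-- the curve `E_n` over `ℚ` -/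
abbrev E (n : ℕ) : WeierstrassCurve ℚ := (W n).map (Int.castRingHom ℚ)

/-- the equation is minimal: `Δ ≠ 0` and `|Δ|` is minimal among the integral equations -/
def IsMinimal (V : WeierstrassCurve ℤ) : Prop :=
  V.Δ ≠ 0 ∧ ∀ (V' : WeierstrassCurve ℤ) (C : WeierstrassCurve.VariableChange ℚ),
    C • (V.map (Int.castRingHom ℚ)) = V'.map (Int.castRingHom ℚ) → |V.Δ| ≤ |V'.Δ|

/-- `a_p = p - #{affine points modulo p}` -/
noncomputable def ap (V : WeierstrassCurve ℤ) (p : ℕ) : ℤ :=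
  p - (Nat.card {P : ZMod p × ZMod p //
    (V.map (Int.castRingHom (ZMod p))).toAffine.Equation P.1 P.2} : ℕ)

/-- `Λ` is entire and it is the Hasse-Weil L-function of the minimal equation `V` -/
def IsL (V : WeierstrassCurve ℤ) (Λ : ℂ → ℂ) : Prop :=
  Differentiable ℂ Λ ∧ ∀ s : ℂ, 3 / 2 < s.re →
    HasProd (fun p : Nat.Primes => (1 - (ap V p : ℂ) * ((p : ℕ) : ℂ) ^ (-s) +
      (if ((p : ℕ) : ℤ) ∣ V.Δ then 0 else ((p : ℕ) : ℂ) ^ (1 - 2 * s)))⁻¹) (Λ s)

/-- `4 x³ + b₂ x² + 2 b₄ x + b₆ = (2 y + a₁ x + a₃)²` -/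
noncomputable def cubic (V : WeierstrassCurve ℤ) (x : ℝ) : ℝ :=
  4 * x ^ 3 + V.b₂ * x ^ 2 + 2 * V.b₄ * x + V.b₆

/-- `Ω = ∫_{E(ℝ)} |ω|`, `ω = dx / (2 y + a₁ x + a₃)`; two real points lie over each `x` with
`cubic x > 0` -/
noncomputable def Omega (V : WeierstrassCurve ℤ) : ℝ :=
  ∫ x in {x : ℝ | 0 < cubic V x}, 2 / Real.sqrt (cubic V x)

/-- the reduction of the point `(x, y)` modulo `p` is the singular point -/
def Sing (V : WeierstrassCurve ℤ) (p : ℕ) [Fact p.Prime] (x y : ℚ_[p]) : Prop :=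
  ‖x‖ ≤ 1 ∧ ‖y‖ ≤ 1 ∧ ‖V.a₁ * y - (3 * x ^ 2 + 2 * V.a₂ * x + V.a₄)‖ < 1 ∧
    ‖2 * y + V.a₁ * x + V.a₃‖ < 1

open scoped Classical in
/-- the Tamagawa number `[E(ℚ_p) : E_0(ℚ_p)]`, `E_0(ℚ_p)` the group generated by the points with
nonsingular reduction -/
noncomputable def tam (V : WeierstrassCurve ℤ) (p : ℕ) [Fact p.Prime] : ℕ :=
  (AddSubgroup.closure {P : (V.map (Int.castRingHom ℚ_[p])).toAffine.Point |
    ∀ (x y : ℚ_[p]) (h), P = .some x y h → ¬ Sing V p x y}).index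

/-- the product of the Tamagawa numbers over the primes which divide the discriminant -/
noncomputable def Tam (V : WeierstrassCurve ℤ) : ℕ :=
  ∏ p ∈ V.Δ.natAbs.primeFactors, if h : p.Prime then (haveI := Fact.mk h; tam V p) else 1

/-- the order of the torsion subgroup of `E_n(ℚ)` -/
noncomputable def tors (n : ℕ) : ℕ := Nat.card (AddCommGroup.torsion (E n).toAffine.Point)

/-- the right-hand side of the formula for rank `0`, divided by `Ω`: `#Ш Tam / #E_n(ℚ)_tors²` -/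
noncomputable def Lalg (n : ℕ) : ℚ := Nat.card (Sha (E n)) * Tam (W n) / (tors n : ℚ) ^ 2

/-- the order of `Ш(E_n/ℚ)` predicted by the formula for rank `0`, `l` being the value at `s = 1`:
`l #E_n(ℚ)_tors² / (Ω Tam)` -/
noncomputable def anSha (n : ℕ) (l : ℂ) : ℂ :=
  l / (Omega (W n) : ℝ) * (tors n : ℂ) ^ 2 / (Tam (W n) : ℂ)

/-- `E_n(ℚ)` is finite and the `2`-primary part of `Ш(E_n/ℚ)` is zero -/
def FinSha (n : ℕ) : Prop :=
  Finite (E n).toAffine.Point ∧ ∀ (k : ℕ) (x : Sha (E n)), 2 ^ k • x = 0 → x = 0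

/-- the family: the squarefree numbers `≡ 11` modulo `24` -/
def Family (n : ℕ) : Prop := Squarefree n ∧ n % 24 = 11

/-- the divisors `d` of `n` in the kernel of Rédei's matrix of `ℚ(√-n)`: `(d/p) = 1` for the primes `p`
dividing `n` and not dividing `d`, `((n/d)/p) = 1` for the primes `p` dividing `d` -/
def Redei (n d : ℕ) : Prop := d ∣ n ∧
  (∀ p : ℕ, p.Prime → p ∣ n → ¬ p ∣ d → jacobiSym d p = 1) ∧
  (∀ p : ℕ, p.Prime → p ∣ d → jacobiSym ((n / d : ℕ) : ℤ) p = 1)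

/-- the criterion: the kernel of Rédei's matrix consists of `1` and `n` -/
def Good (n : ℕ) : Prop := ∀ d : ℕ, Redei n d → d = 1 ∨ d = n

/-- the `2`-part of the formula, with `L(E_n, 1) ≠ 0` and no element of order two in `Ш`:
`E_n(ℚ)` is finite, `Ш(E_n/ℚ)[2^∞] = 0`, the predicted order of `Ш` is the square of an odd number, and
`b L(E_n, 1) / Ω = a #Ш Tam / #E_n(ℚ)_tors²` for odd numbers `a`, `b` if `Ш(E_n/ℚ)` is finite -/
def TwoPart (n : ℕ) : Prop :=
  FinSha n ∧ ∃ Λ : ℂ → ℂ, IsL (W n) Λ ∧ (∃ y : ℕ, Odd y ∧ anSha n (Λ 1) = (y : ℂ) ^ 2) ∧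
    (Finite (Sha (E n)) → ∃ a b : ℕ, Odd a ∧ Odd b ∧
      b * (Λ 1 / (Omega (W n) : ℝ)) = a * ((Lalg n : ℚ) : ℂ))

open Classical in
/-- the number of the `n ≤ X` of the family with the property `P` -/
noncomputable def num (P : ℕ → Prop) (X : ℕ) : ℕ :=
  ((Finset.Icc 1 X).filter fun n : ℕ => Family n ∧ P n).card

/-- the constant `(1 - 1/2) (1 - 1/4) (1 - 1/8) ⋯ = 0.2887...` -/
noncomputable def c : ℝ := ∏' i : ℕ, (1 - (1 / 2 : ℝ) ^ (i + 1))

/-- the squarefree part of `n m` for squarefree `n` and `m` -/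
def tw (n m : ℕ) : ℕ := n * m / (Nat.gcd n m) ^ 2

section proof

open Pool.Agent.H345.X24
open Pool.Agent.H464.XB (nx_eq card_red card_two law)

lemma twn_of {n : ℕ} (hn : Family n) : Twn n := ⟨hn.1, hn.2⟩

lemma tors_eq {n : ℕ} (hn : Family n) : tors n = 4 := tors_card (twn_of hn).m8

lemma tam_eq {n : ℕ} (hn : Family n) : Tam (W n) = 4 ^ (n.primeFactors.card + 1) :=
  tamProd_eq (twn_of hn)

lemma good_iff {n : ℕ} (hn : Family n) :
    Good n ↔ Pool.Agent.NH4.XG.nx n.primeFactors = 2 := by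
  have h2 := hn.2
  rw [nx_eq hn.1 (by omega), ← card_red hn.1 (by omega)]
  exact (card_two hn.1 (by omega)).symm

lemma fin_iff {n : ℕ} (hn : Family n) : FinSha n ↔ Good n := by
  rw [good_iff hn]
  exact finSha_iff (twn_of hn)

lemma qc_iff {n : ℕ} (hn : Family n) : Pool.Agent.N877.P24.Qc n ↔ Good n := by
  have hs := hn.1
  have hn0 : n ≠ 0 := hs.ne_zero
  constructor
  · rintro h d ⟨hd, h1, h2⟩
    obtain ⟨e, rfl⟩ := hd
    have hd0 : 0 < d := Nat.pos_of_ne_zero (left_ne_zero_of_mul hn0)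
    have he0 : e ≠ 0 := right_ne_zero_of_mul hn0
    rw [Nat.mul_div_cancel_left _ hd0] at h2
    have hco : Nat.Coprime d e := (Nat.squarefree_mul_iff.1 hs).1
    have k1 : ∀ p ∈ e.primeFactors, jacobiSym d p = 1 := by
      intro p hp
      have hpp := Nat.prime_of_mem_primeFactors hp
      have hpe := Nat.dvd_of_mem_primeFactors hp
      refine h1 p hpp (Dvd.dvd.mul_left hpe d) fun hpd => ?_
      exact hpp.one_lt.ne' (Nat.dvd_one.1 (hco ▸ Nat.dvd_gcd hpd hpe))
    have k2 : ∀ p ∈ d.primeFactors, jacobiSym e p = 1 := by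
      intro p hp
      exact h2 p (Nat.prime_of_mem_primeFactors hp) (Nat.dvd_of_mem_primeFactors hp)
    rcases h d e rfl k1 k2 with h3 | h3
    · exact Or.inl h3
    · right
      rw [h3, mul_one]
  · intro h b c hbc h1 h2
    have hbc0 : b * c ≠ 0 := by rw [hbc]; exact hn0
    have hb0 : 0 < b := Nat.pos_of_ne_zero (left_ne_zero_of_mul hbc0)
    have hc0 : c ≠ 0 := right_ne_zero_of_mul hbc0
    have hR : Redei n b := by
      refine ⟨⟨c, hbc.symm⟩, fun p hp hpn hpb => ?_, fun p hp hpb => ?_⟩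
      · refine h1 p (Nat.mem_primeFactors.2 ⟨hp, ?_, hc0⟩)
        rw [← hbc] at hpn
        exact ((hp.dvd_mul).1 hpn).resolve_left hpb
      · rw [← hbc, Nat.mul_div_cancel_left _ hb0]
        exact h2 p (Nat.mem_primeFactors.2 ⟨hp, hpb, hb0.ne'⟩)
    rcases h b hR with h3 | h3
    · exact Or.inl h3
    · right
      rw [h3] at hbc
      exact Nat.eq_of_mul_eq_mul_left (Nat.pos_of_ne_zero hn0) (by rw [hbc, mul_one])

lemma odd_card {G : Type} [AddCommGroup G] [Finite G] (h : ∀ x : G, x + x = 0 → x = 0) :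
    Odd (Nat.card G) := by
  rw [← Nat.not_even_iff_odd]
  intro he
  have := Fintype.ofFinite G
  have : Fact (Nat.Prime 2) := ⟨Nat.prime_two⟩
  rw [Nat.card_eq_fintype_card] at he
  obtain ⟨x, hx⟩ := exists_prime_addOrderOf_dvd_card 2 he.two_dvd
  have h1 : x + x = 0 := by
    rw [← two_nsmul, ← hx]
    exact addOrderOf_nsmul_eq_zero x
  rw [h x h1, addOrderOf_zero] at hx
  norm_num at hx

lemma omega_eq (n : ℕ) : Omega (W n) = 2 * ∫ x in {x : ℝ | 0 < Pool.Agent.N971.MF.cubic (W n) x},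
    1 / √(Pool.Agent.N971.MF.cubic (W n) x) := by
  rw [← integral_const_mul]
  unfold Omega
  refine integral_congr_ae (Eventually.of_forall fun x => ?_)
  show 2 / √(cubic (W n) x) = 2 * (1 / √(Pool.Agent.N971.MF.cubic (W n) x))
  rw [mul_one_div]
  rfl

/-- the value at `1` -/
lemma value {n : ℕ} (hn : Family n) : ∃ Λ : ℂ → ℂ, IsL (W n) Λ ∧ 0 < Omega (W n) ∧
    ∃ y : ℕ, 4 * (Λ 1 / (Omega (W n) : ℝ)) = 4 ^ n.primeFactors.card * (y : ℂ) ^ 2 ∧
      (Odd y ↔ Good n) := by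
  obtain ⟨f, hf, -, h1, h2, h3⟩ := Pool.Agent.N877.P24.value24 hn.1 hn.2
  obtain ⟨y, hy, hodd⟩ := Pool.Agent.N878.P24.t_PAR Pool.Agent.N877.P24.t_R n ⟨hn.1, hn.2⟩
  have hO := omega_eq n
  have hO' : 0 < Omega (W n) := by
    rw [hO]
    exact mul_pos two_pos h2
  refine ⟨f, ⟨hf, fun s hs => Pool.Agent.N877.P24.euler_W hn.2 (h3 s hs)⟩, hO', y.natAbs, ?_, ?_⟩
  · have hOC : ((Omega (W n) : ℝ) : ℂ) ≠ 0 := by exact_mod_cast hO'.ne'
    have e1 : f 1 = (((Pool.Agent.N877.P24.cc n : ℝ) ^ 2 / 576 * Omega (W n) : ℝ) : ℂ) := by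
      rw [hO]
      exact h1
    have e2 : ((y.natAbs : ℕ) : ℂ) ^ 2 = (y : ℂ) ^ 2 := by
      have : ((y.natAbs : ℕ) : ℤ) ^ 2 = y ^ 2 := Int.natAbs_sq y
      rw [← Int.cast_natCast, ← Int.cast_pow, this, Int.cast_pow]
    have e3 : ((Pool.Agent.N877.P24.cc n : ℤ) : ℂ) = 12 * 2 ^ n.primeFactors.card * y := by
      rw [hy]
      push_cast
      ring
    rw [e1, e2]
    push_cast
    rw [e3, mul_div_assoc, div_self hOC]
    have e4 : (4 : ℂ) ^ n.primeFactors.card = (2 ^ n.primeFactors.card) ^ 2 := by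
      rw [← pow_mul, mul_comm, pow_mul]
      norm_num
    rw [e4]
    ring
  · rw [Int.natAbs_odd, hodd, qc_iff hn]

lemma core {n : ℕ} (hn : Family n) : ∃ Λ : ℂ → ℂ, IsL (W n) Λ ∧
    ∃ y : ℕ, anSha n (Λ 1) = (y : ℂ) ^ 2 ∧ (Odd y ↔ FinSha n) ∧
      (FinSha n → Finite (Sha (E n)) →
        ∃ a b : ℕ, Odd a ∧ Odd b ∧ b * (Λ 1 / (Omega (W n) : ℝ)) = a * ((Lalg n : ℚ) : ℂ)) := by
  obtain ⟨f, hf, hO, y, hv, hy⟩ := value hn
  have hfs : Odd y ↔ FinSha n := by
    rw [hy, fin_iff hn]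
  have ht := tors_eq hn
  have hT := tam_eq hn
  obtain ⟨k, hk⟩ : ∃ k : ℕ, k = n.primeFactors.card := ⟨_, rfl⟩
  rw [← hk] at hT hv
  have hLan : f 1 / (Omega (W n) : ℝ) = (y : ℂ) ^ 2 * 4 ^ k / 4 := by
    rw [eq_div_iff (by norm_num), mul_comm, hv]
    ring
  have han : anSha n (f 1) = (y : ℂ) ^ 2 := by
    unfold anSha
    rw [hLan, ht, hT]
    push_cast
    field_simp
    ring
  refine ⟨f, hf, y, han, hfs, fun hF hfin => ?_⟩
  refine ⟨y ^ 2, Nat.card (Sha (E n)), ?_, ?_, ?_⟩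
  · exact (hfs.2 hF).pow
  · exact odd_card fun x hx => hF.2 1 x (by rw [pow_one, two_nsmul]; exact hx)
  · unfold Lalg
    rw [hLan, ht, hT]
    push_cast
    rw [pow_succ]
    ring

lemma two_iff {n : ℕ} (hn : Family n) : TwoPart n ↔ Good n := by
  obtain ⟨Λ, hL, y, h2, h3, h5⟩ := core hn
  rw [← fin_iff hn]
  constructor
  · intro h
    exact h.1
  · intro hF
    exact ⟨hF, Λ, hL, ⟨y, h3.2 hF, h2⟩, h5 hF⟩

lemma num_cT {P Q : ℕ → Prop} (h : ∀ n : ℕ, Family n → (P n ↔ Q n)) (X : ℕ) :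
    num P X = cT Q X := by
  unfold num cT
  refine Pool.Agent.NH3.XD.card_iff fun n hn => ?_
  exact and_congr_right fun hF => h n hF

lemma num_true (X : ℕ) : num (fun _ => True) X = cT (fun _ => True) X :=
  num_cT (fun _ _ => Iff.rfl) X

lemma law_zero : law 0 = c := by
  unfold Pool.Agent.H464.XB.law c
  simp

lemma two_nx {n : ℕ} (hn : Family n) :
    TwoPart n ↔ Pool.Agent.NH4.XJ.nx n.primeFactors = 2 ^ (0 + 1) := by
  have h2 := hn.2
  rw [two_iff hn, good_iff hn, nx_eq hn.1 (by omega)]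
  norm_num

lemma tw_fam {n : ℕ} (hn : Family n) {m : ℕ} (hm : Squarefree m ∧ m % 24 = 1) :
    Family (tw n m) ∧ (tw n m).primeFactors = symmDiff n.primeFactors m.primeFactors := by
  obtain ⟨h1, h2, h3⟩ := twn_spec hn.1 hn.2 hm.1 hm.2
  exact ⟨⟨h1, h2⟩, h3⟩

lemma prop_two : Tendsto (fun X : ℕ => (num TwoPart X : ℝ) / (num (fun _ => True) X : ℝ))
    atTop (𝓝 c) := by
  rw [← law_zero]
  refine (law_cT 0).congr fun X => ?_
  rw [num_true, num_cT (Q := fun n => Pool.Agent.NH4.XJ.nx n.primeFactors = 2 ^ (0 + 1))]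
  intro n hF
  exact two_nx hF

lemma joint_num {M : ℕ} {m : Fin M → ℕ} (hinj : Function.Injective m)
    (hm : ∀ t, Squarefree (m t) ∧ m t % 24 = 1) :
    Tendsto (fun X : ℕ => (num (fun n => ∀ t, TwoPart (tw n (m t))) X : ℝ) /
      (num (fun _ => True) X : ℝ)) atTop (𝓝 (c ^ M)) := by
  have h := joint_cT hinj hm (fun _ => 0)
  simp only [law_zero, Finset.prod_const, Finset.card_univ, Fintype.card_fin] at h
  refine h.congr fun X => ?_
  rw [num_true, num_cT]
  intro n hF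
  refine forall_congr' fun t => ?_
  rw [two_nx (tw_fam hF (hm t)).1, (tw_fam hF (hm t)).2]

end proof

theorem result :
    (∀ n : ℕ, Family n →
      IsMinimal (W n) ∧ tors n = 4 ∧ Tam (W n) = 4 ^ (n.primeFactors.card + 1) ∧
      (∃ Λ : ℂ → ℂ, IsL (W n) Λ ∧ ∃ y : ℕ, anSha n (Λ 1) = (y : ℂ) ^ 2 ∧ (Odd y ↔ FinSha n)) ∧
      (FinSha n ↔ Good n) ∧ (TwoPart n ↔ Good n)) ∧
    Tendsto (fun X : ℕ => (num TwoPart X : ℝ) / (num (fun _ => True) X : ℝ)) atTop (𝓝 c) ∧
    (∀ (M : ℕ) (m : Fin M → ℕ), Function.Injective m → (∀ t, Squarefree (m t) ∧ m t % 24 = 1) →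
      (∀ n : ℕ, Family n → ∀ t, Family (tw n (m t))) ∧
      Tendsto (fun X : ℕ => (num (fun n => ∀ t, TwoPart (tw n (m t))) X : ℝ) /
        (num (fun _ => True) X : ℝ)) atTop (𝓝 (c ^ M))) ∧
    Tendsto (fun X : ℕ => (num (fun _ => True) X : ℝ) / X) atTop (𝓝 (3 / (8 * Real.pi ^ 2))) ∧
    0.2887 < c ∧ c < 0.2888 := by
  refine ⟨fun n hn => ?_, prop_two, fun M m hinj hm => ⟨fun n hn t => (tw_fam hn (hm t)).1,
    joint_num hinj hm⟩, ?_, Pool.Agent.NH5.PR.t_ETA.2.2.2⟩
  · obtain ⟨Λ, hL, y, h2, h3, h5⟩ := core hn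
    exact ⟨Pool.Agent.H345.X24.minimal_W (twn_of hn), tors_eq hn, tam_eq hn,
      ⟨Λ, hL, y, h2, h3⟩, fin_iff hn, two_iff hn⟩
  · refine Pool.Agent.H345.X24.dens_cT.congr fun X => ?_
    rw [num_true]

end Pool.Agent.Results.MP_9c97e9_nt.TwistsOfX024
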